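import Pool.Agent.MBX.Stmts

/-!
# MBX: row RP1 (cyclic representations: every vector is a polynomial of the field operators)
-/

set_option autoImplicit false

open MeasureTheory Complex Matrix

noncomputable section

namespace Pool.Agent.MBX.H87

open Pool.Agent.Helper49_Pauli
open Pool.Agent.Helper61_Pauli (JJ JJ_one JJ_X a_JJ)
open Pool.Agent.Helper75_Pauli.Half (rot)

theorem ad_rot {M D : Type} [Fintype M] [DecidableEq M] [NormedAddCommGroup D]
    [InnerProductSpace ℂ D] (F : Bosons M D) (U : Matrix M M ℂ) (hU : U * Uᴴ = 1) (m : M) (v : D) :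
    F.ad m v = ∑ i, U i m • (rot F U hU).ad i v := by
  have h1 : Uᴴ * U = 1 := mul_eq_one_comm.1 hU
  have h2 : ∀ j, ∑ i, U i m * (starRingEnd ℂ) (U i j) = if j = m then 1 else 0 := by
    intro j
    have h3 := congrFun (congrFun h1 j) m
    rw [Matrix.mul_apply, Matrix.one_apply] at h3
    rw [← h3]
    refine Finset.sum_congr rfl fun i _ => ?_
    rw [Matrix.conjTranspose_apply, mul_comm]
    rfl
  have h4 : ∀ i, (rot F U hU).ad i v = ∑ j, (starRingEnd ℂ) (U i j) • F.ad j v := by
    intro i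
    change (∑ j, (starRingEnd ℂ) (U i j) • F.ad j) v = _
    simp only [LinearMap.sum_apply, LinearMap.smul_apply]
  simp only [h4, Finset.smul_sum, smul_smul]
  rw [Finset.sum_comm]
  simp only [← Finset.sum_smul, h2]
  simp

theorem rp1 : Rp1Stmt := by
  intro cut L hL P D _ _ F hF v
  set U := Pool.Agent.Helper75_Pauli.Half.U (cut := cut) P with hUdef
  set hU := Pool.Agent.Helper75_Pauli.Half.unitary (cut := cut) hL P
  set G := rot F U hU with hG
  have hvac : F.vac ∈ LinearMap.range (JJ G) := ⟨1, JJ_one G⟩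
  have h1 : ∀ i v, v ∈ LinearMap.range (JJ G) → G.ad i v ∈ LinearMap.range (JJ G) := by
    rintro i _ ⟨Q, rfl⟩
    refine ⟨MvPolynomial.X i * Q - MvPolynomial.pderiv i Q, ?_⟩
    rw [map_sub, JJ_X, ← a_JJ]
    abel
  have h2 : ∀ m v, v ∈ LinearMap.range (JJ G) → F.ad m v ∈ LinearMap.range (JJ G) := by
    intro m v hv
    rw [ad_rot F U hU m v]
    exact Submodule.sum_mem _ fun i _ => Submodule.smul_mem _ _ (h1 i v hv)
  have h3 := hF _ hvac h2
  have h4 : v ∈ LinearMap.range (JJ G) := by
    rw [h3]; exact Submodule.mem_top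
  exact h4

end Pool.Agent.MBX.H87
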